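import Pool.Agent.W793.SCH.Stm

/-! Part `S_SUP` of the project SCH (MP_7f377f_mp): the lazy random walk spreads. -/

set_option autoImplicit false

open MeasureTheory

namespace Pool.Agent.W252.SCH

open Pool.Agent.W793.SCH

theorem pk_nonneg (d k : ℕ) : ∀ z : Fin d → ℤ, 0 ≤ pk d k z := by
  induction k with
  | zero =>
    intro z
    unfold pk
    split_ifs <;> norm_num
  | succ k ih =>
    intro z
    unfold pk
    have h1 : 0 ≤ ∑ i, (pk d k (z + Pi.single i 1) + pk d k (z - Pi.single i 1)) :=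
      Finset.sum_nonneg fun i _ => add_nonneg (ih _) (ih _)
    have h2 := ih z
    positivity

theorem lam_nonneg {d : ℕ} (θ : Fin d → ℝ) : 0 ≤ lam θ := by
  unfold lam
  apply Finset.sum_nonneg
  intro i _
  have := Real.cos_le_one (θ i)
  linarith

theorem lam_le {d : ℕ} (θ : Fin d → ℝ) : lam θ ≤ 4 * d := by
  unfold lam
  calc ∑ i, (2 - 2 * Real.cos (θ i)) ≤ ∑ _i : Fin d, (4 : ℝ) := by
        apply Finset.sum_le_sum
        intro i _
        have := Real.neg_one_le_cos (θ i)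
        linarith
    _ = 4 * d := by
        simp
        ring

theorem point {d : ℕ} (hd : 1 ≤ d) (k : ℕ) (θ : Fin d → ℝ) (hθ : θ ∈ box d) (c : ℝ) (hc : c ≤ 1) :
    (1 - lam θ / (4 * d)) ^ k * c ≤ ∏ i, Real.exp (-((k : ℝ) / (d * Real.pi ^ 2)) * θ i ^ 2) := by
  have hd0 : (0 : ℝ) < d := by exact_mod_cast hd
  have hb0 : 0 ≤ 1 - lam θ / (4 * d) := by
    rw [sub_nonneg, div_le_one (by positivity)]
    exact lam_le θ
  have h1 : (1 - lam θ / (4 * d)) ^ k * c ≤ (1 - lam θ / (4 * d)) ^ k :=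
    mul_le_of_le_one_right (pow_nonneg hb0 k) hc
  have h2 : (1 - lam θ / (4 * d)) ^ k ≤ Real.exp (-(lam θ / (4 * d))) ^ k :=
    pow_le_pow_left₀ hb0 (Real.one_sub_le_exp_neg _) k
  have h3 : Real.exp (-(lam θ / (4 * d))) ^ k = Real.exp (-((k : ℝ) / (4 * d) * lam θ)) := by
    rw [← Real.exp_nat_mul]
    congr 1
    ring
  have h4 : ∑ i, (4 / Real.pi ^ 2) * θ i ^ 2 ≤ lam θ := by
    unfold lam
    apply Finset.sum_le_sum
    intro i _
    have hi : |θ i| ≤ Real.pi := by
      have := (Set.mem_pi.mp hθ) i (Set.mem_univ i)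
      exact abs_le.mpr this
    have := Real.cos_le_one_sub_mul_cos_sq hi
    have e : 4 / Real.pi ^ 2 * θ i ^ 2 = 2 * (2 / Real.pi ^ 2 * θ i ^ 2) := by ring
    rw [e]
    linarith
  have h5 : Real.exp (-((k : ℝ) / (4 * d) * lam θ)) ≤
      ∏ i, Real.exp (-((k : ℝ) / (d * Real.pi ^ 2)) * θ i ^ 2) := by
    rw [← Real.exp_sum]
    apply Real.exp_le_exp.mpr
    have e : ∑ i, -((k : ℝ) / (d * Real.pi ^ 2)) * θ i ^ 2 =
        -((k : ℝ) / (4 * d) * ∑ i, (4 / Real.pi ^ 2) * θ i ^ 2) := by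
      rw [Finset.mul_sum, ← Finset.sum_neg_distrib]
      apply Finset.sum_congr rfl
      intro i _
      have := Real.pi_pos
      field_simp
    rw [e]
    apply neg_le_neg
    exact mul_le_mul_of_nonneg_left h4 (by positivity)
  calc (1 - lam θ / (4 * d)) ^ k * c ≤ (1 - lam θ / (4 * d)) ^ k := h1
    _ ≤ Real.exp (-(lam θ / (4 * d))) ^ k := h2
    _ = Real.exp (-((k : ℝ) / (4 * d) * lam θ)) := h3
    _ ≤ _ := h5

theorem isCompact_box (d : ℕ) : IsCompact (box d) :=
  isCompact_univ_pi fun _ => isCompact_Icc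

theorem t_SUP (hF : S_FR) : S_SUP := by
  intro d hd
  have hd0 : (0 : ℝ) < d := by exact_mod_cast hd
  have hpi := Real.pi_pos
  refine ⟨(Real.sqrt (Real.pi ^ 3 * d) / (2 * Real.pi)) ^ d, by positivity, ?_⟩
  intro k z
  refine ⟨pk_nonneg d k z, ?_⟩
  intro hk
  have hk0 : (0 : ℝ) < k := by exact_mod_cast hk
  set b : ℝ := (k : ℝ) / (d * Real.pi ^ 2) with hb
  have hb0 : 0 < b := by positivity
  set g : (Fin d → ℝ) → ℝ := fun θ => ∏ i, Real.exp (-b * θ i ^ 2) with hg
  have hgint : Integrable g := by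
    have := Integrable.fintype_prod (𝕜 := ℝ) (f := fun (_ : Fin d) (x : ℝ) => Real.exp (-b * x ^ 2))
      (μ := fun _ => (volume : Measure ℝ)) (fun _ => integrable_exp_neg_mul_sq hb0)
    exact this
  have hg0 : ∀ θ, 0 ≤ g θ := fun θ => Finset.prod_nonneg fun i _ => (Real.exp_pos _).le
  have hgval : ∫ θ, g θ = Real.sqrt (Real.pi / b) ^ d := by
    have := integral_fintype_prod_volume_eq_pow (ι := Fin d) (fun x : ℝ => Real.exp (-b * x ^ 2))
    rw [integral_gaussian, Fintype.card_fin] at this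
    exact this
  have hf : IntegrableOn (fun θ : Fin d → ℝ =>
      (1 - lam θ / (4 * d)) ^ k * Real.cos (∑ i, θ i * z i)) (box d) := by
    apply ContinuousOn.integrableOn_compact (isCompact_box d)
    apply Continuous.continuousOn
    unfold lam
    fun_prop
  have hmono : ∫ θ in box d, (1 - lam θ / (4 * d)) ^ k * Real.cos (∑ i, θ i * z i) ≤
      ∫ θ in box d, g θ :=
    setIntegral_mono_on hf hgint.integrableOn (isCompact_box d).isClosed.measurableSet
      fun θ hθ => point hd k θ hθ _ (Real.cos_le_one _)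
  have hle : ∫ θ in box d, g θ ≤ ∫ θ, g θ :=
    setIntegral_le_integral hgint (Filter.Eventually.of_forall hg0)
  rw [hF d k hd z]
  calc 1 / (2 * Real.pi) ^ d *
        ∫ θ in box d, (1 - lam θ / (4 * d)) ^ k * Real.cos (∑ i, θ i * z i)
      ≤ 1 / (2 * Real.pi) ^ d * Real.sqrt (Real.pi / b) ^ d := by
        apply mul_le_mul_of_nonneg_left _ (by positivity)
        rw [← hgval]
        exact hmono.trans hle
    _ = (Real.sqrt (Real.pi ^ 3 * d) / (2 * Real.pi)) ^ d / Real.sqrt k ^ d := by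
        have e : Real.pi / b = (Real.pi ^ 3 * d) / k := by
          rw [hb]
          field_simp
        rw [e, Real.sqrt_div (by positivity), div_pow, div_pow]
        field_simp

end Pool.Agent.W252.SCH
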